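import Pool.Agent.Helper45.PQ.StK

/-!
# Project PQ (MP_a1f43d_co), module NWR: reflections
-/

set_option autoImplicit false

open Module Classical
open scoped LinearAlgebra.Projectivization

namespace Pool.Agent.Helper75.PQ

open Pool.Agent.Helper45.PQ

universe u v

section

variable {F : Type u} {V : Type v} [Field F] [AddCommGroup V] [Module F V] (Q : QuadraticForm F V)

/-- the reflection -/
private noncomputable def rfl' (a x : V) : V := x - (QuadraticMap.polar Q a x / Q a) • a

private theorem rfl_add (a x y : V) : rfl' Q a (x + y) = rfl' Q a x + rfl' Q a y := by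
  unfold rfl'
  rw [QuadraticMap.polar_add_right, add_div, add_smul]
  abel

private theorem rfl_Q {a : V} (ha : Q a ≠ 0) (x : V) : Q (rfl' Q a x) = Q x := by
  unfold rfl'
  rw [sub_eq_add_neg, ← neg_smul, QuadraticMap.map_add Q, QuadraticMap.map_smul,
    QuadraticMap.polar_smul_right, QuadraticMap.polar_comm Q x a, smul_eq_mul, smul_eq_mul]
  field_simp
  ring

private theorem rfl_polar {a : V} (ha : Q a ≠ 0) (x y : V) :
    QuadraticMap.polar Q (rfl' Q a x) (rfl' Q a y) = QuadraticMap.polar Q x y := by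
  unfold QuadraticMap.polar
  rw [← rfl_add, rfl_Q Q ha, rfl_Q Q ha, rfl_Q Q ha]

private theorem rfl_rfl {a : V} (ha : Q a ≠ 0) (x : V) : rfl' Q a (rfl' Q a x) = x := by
  have h : QuadraticMap.polar Q a (rfl' Q a x) = -QuadraticMap.polar Q a x := by
    unfold rfl'
    rw [sub_eq_add_neg, ← neg_smul, QuadraticMap.polar_add_right, QuadraticMap.polar_smul_right,
      polar_self_two, smul_eq_mul]
    field_simp
    ring
  conv_lhs => rw [rfl']
  rw [h, neg_div, neg_smul, sub_neg_eq_add]
  unfold rfl'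
  abel

/-- the number of points -/
private theorem card_sp [Finite F] [Finite V] (w : V) :
    {x : V | x ≠ 0 ∧ (Q x = 0 ∧ QuadraticMap.polar Q w x = 0)}.ncard =
      (Nat.card F - 1) * (sp Q (prp Q w)).card := by
  rw [card_vec (F := F) (fun x => Q x = 0 ∧ QuadraticMap.polar Q w x = 0)]
  · congr 2
    ext P
    simp only [Finset.mem_filter, Finset.mem_univ, true_and, mem_sp, mem_prp]
    exact and_comm
  · intro c x hc
    rw [QuadraticMap.map_smul, QuadraticMap.polar_smul_right, smul_eq_mul, smul_eq_mul]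
    constructor
    · rintro ⟨h1, h2⟩
      exact ⟨(mul_eq_zero.1 h1).resolve_left (mul_ne_zero hc hc),
        (mul_eq_zero.1 h2).resolve_left hc⟩
    · rintro ⟨h1, h2⟩
      rw [h1, h2, mul_zero, mul_zero]
      exact ⟨rfl, rfl⟩

private theorem key [Finite F] [Finite V] {a w w' : V} (ha : Q a ≠ 0)
    (h : rfl' Q a w = w' ∨ rfl' Q a w = -w') :
    (sp Q (prp Q w)).card = (sp Q (prp Q w')).card := by
  have hz : ∀ x, QuadraticMap.polar Q w' (rfl' Q a x) = 0 ↔ QuadraticMap.polar Q w x = 0 := by
    intro x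
    rw [← rfl_polar Q ha w x]
    rcases h with h | h
    · rw [h]
    · rw [h, QuadraticMap.polar_neg_left, neg_eq_zero]
  have hinj : Function.Injective (rfl' Q a) := fun x y hxy => by
    rw [← rfl_rfl Q ha x, hxy, rfl_rfl Q ha]
  have h0 : ∀ x, rfl' Q a x = 0 ↔ x = 0 := by
    have h00 : rfl' Q a 0 = 0 := by
      unfold rfl'
      rw [QuadraticMap.polar_zero_right, zero_div, zero_smul, sub_zero]
    intro x
    constructor
    · intro hx
      exact hinj (hx.trans h00.symm)
    · rintro rfl
      exact h00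
  have hset : {x : V | x ≠ 0 ∧ (Q x = 0 ∧ QuadraticMap.polar Q w' x = 0)} =
      rfl' Q a '' {x : V | x ≠ 0 ∧ (Q x = 0 ∧ QuadraticMap.polar Q w x = 0)} := by
    ext x
    constructor
    · rintro ⟨h1, h2, h3⟩
      refine ⟨rfl' Q a x, ⟨fun h4 => h1 ((h0 x).1 h4), ?_, ?_⟩, rfl_rfl Q ha x⟩
      · rw [rfl_Q Q ha, h2]
      · rw [← hz, rfl_rfl Q ha, h3]
    · rintro ⟨y, ⟨h1, h2, h3⟩, rfl⟩
      exact ⟨fun h4 => h1 ((h0 y).1 h4), by rw [rfl_Q Q ha, h2], (hz y).2 h3⟩
  have e1 := card_sp Q w
  have e2 := card_sp Q w'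
  rw [hset, Set.ncard_image_of_injective _ hinj, e1] at e2
  have hq : 0 < Nat.card F - 1 := by
    have := Finite.one_lt_card (α := F)
    omega
  exact Nat.eq_of_mul_eq_mul_left hq e2

private theorem same [Finite F] [Finite V] (h2 : (2 : F) ≠ 0) {w w' : V} (hw : Q w ≠ 0)
    (h : Q w' = Q w) : (sp Q (prp Q w)).card = (sp Q (prp Q w')).card := by
  have e1 : Q (w - w') = 2 * Q w - QuadraticMap.polar Q w w' := by
    rw [sub_eq_add_neg, QuadraticMap.map_add Q, QuadraticMap.map_neg,
      QuadraticMap.polar_neg_right, h]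
    ring
  have e2 : Q (w + w') = 2 * Q w + QuadraticMap.polar Q w w' := by
    rw [QuadraticMap.map_add Q, h]
    ring
  by_cases h1 : Q (w - w') = 0
  · have h3 : Q (w + w') ≠ 0 := by
      intro h3
      have h4 : 2 * (2 * Q w) = 0 := by
        rw [e1] at h1
        rw [e2] at h3
        linear_combination h1 + h3
      exact (mul_ne_zero h2 (mul_ne_zero h2 hw)) h4
    refine key Q (a := w + w') h3 (Or.inr ?_)
    have h5 : QuadraticMap.polar Q (w + w') w = Q (w + w') := by
      rw [QuadraticMap.polar_add_left, polar_self_two, QuadraticMap.polar_comm Q w' w, e2]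
    unfold rfl'
    rw [h5, div_self h3, one_smul]
    abel
  · refine key Q (a := w - w') h1 (Or.inl ?_)
    have h5 : QuadraticMap.polar Q (w - w') w = Q (w - w') := by
      rw [QuadraticMap.polar_sub_left, polar_self_two, QuadraticMap.polar_comm Q w' w, e1]
    unfold rfl'
    rw [h5, div_self h1, one_smul]
    abel

end

/-- **NWR** -/
theorem hNWR : StNWR.{u, v} := by
  intro F _ _ h2 V _ _ _ _ Q w w' d hw hd h
  have h1 : prp Q (d • w) = prp Q w := by
    ext x
    rw [mem_prp, mem_prp, QuadraticMap.polar_smul_left, smul_eq_mul, mul_eq_zero,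
      or_iff_right hd]
  have h3 : Q (d • w) = d * d * Q w := by
    rw [QuadraticMap.map_smul, smul_eq_mul]
  rw [← h1]
  refine same Q h2 ?_ (h.trans h3.symm)
  rw [h3]
  exact mul_ne_zero (mul_ne_zero hd hd) hw

end Pool.Agent.Helper75.PQ
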