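import Pool.Agent.Helper45.PQ.StA

/-!
# Project PQ (MP_a1f43d_co), module PST: the Setup for a smallest blocking set
-/

set_option autoImplicit false

open Module Classical
open scoped LinearAlgebra.Projectivization

namespace Pool.Agent.Helper75.PQ

open Pool.Agent.Helper45.PQ
open Pool.Agent.Helper53.PB

universe u v

/-- **PST** -/
theorem hPST (h1 : StPNB.{u, v}) : StPST.{u, v} := by
  intro F _ _ V _ _ _ φ k hφ hp T hT hmin
  have hfin : Finite V := Module.finite_of_finite F
  have hnb : ∀ U, φ.toPolar.Gen U → Nonempty (Nb φ.toPolar U (Fin (Nat.card F))) := fun U hU =>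
    h1 F V φ (k + 2) hφ hp.1 (class_gen hp) U hU
  obtain ⟨U0, hU0, _⟩ := Polar.exists_gen_ge (P := φ.toPolar) Polar.ts_bot
  obtain ⟨z, hz, _⟩ := hT.2 U0 hU0
  obtain ⟨U, hU, hzU, huniq⟩ := Polar.exists_tangent hT hmin hz
  obtain ⟨N⟩ := hnb U hU
  have hA := sumA N (n := k + 1) (class_gen hp U hU) hT.1
  rw [tt_one hz hzU huniq, Fintype.card_fin] at hA
  have h4 : (Finset.univ : Finset (Fin (Nat.card F) × ℙ F (Dual F U))).card =
      Nat.card F * geo (Nat.card F) (k + 2) := by
    rw [Finset.card_univ, Fintype.card_prod, Fintype.card_fin,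
      ← Finset.card_univ (α := ℙ F (Dual F U)), ← class_gen hp U hU,
      ← pts_univ, card_pts, finrank_top, Subspace.dual_finrank_eq]
  have h5 : Nat.card F * geo (Nat.card F) (k + 2) ≤ ∑ p, tt T (N.nb p) := by
    rw [← h4, Finset.card_eq_sum_ones]
    apply Finset.sum_le_sum
    intro p _
    exact tt_pos hT (N.gen p)
  rw [geo_succ', Nat.mul_add] at h5
  refine ⟨T.card - (Nat.card F * Nat.card F ^ (k + 1) + 1), ⟨class_gen hp, hnb, hT, ?_, ?_⟩⟩
  · intro z hz
    exact Polar.exists_tangent hT hmin hz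
  · rw [Fintype.card_fin]
    omega

end Pool.Agent.Helper75.PQ
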